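import Mathlib

/-! Operator recursion behind the dimension-free pairwise bound for multiple state discrimination. -/

open Matrix Finset
open scoped ComplexOrder MatrixOrder

namespace Pool.Agent.Helper340Trace

variable {d : Type*} [Fintype d] [DecidableEq d]

lemma tr_re_nonneg {X : Matrix d d ℂ} (hX : X.PosSemidef) : 0 ≤ X.trace.re :=
  (Complex.le_def.1 hX.trace_nonneg).1

lemma tr_mul_nonneg {X Y : Matrix d d ℂ} (hX : X.PosSemidef) (hY : Y.PosSemidef) :
    0 ≤ (X * Y).trace.re := by
  obtain ⟨B, rfl⟩ := CStarAlgebra.nonneg_iff_eq_star_mul_self.mp hY.nonneg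
  have h : (X * (star B * B)).trace = (B * X * Bᴴ).trace := by
    rw [← mul_assoc, Matrix.trace_mul_comm, ← mul_assoc]; rfl
  rw [h]
  exact tr_re_nonneg (hX.mul_mul_conjTranspose_same B)

/-- `P G = (1 + G)⁻¹` -/
noncomputable def P (G : Matrix d d ℂ) : Matrix d d ℂ := (1 + G)⁻¹

/-- `B G = 4 G (1 + G)⁻²` -/
noncomputable def B (G : Matrix d d ℂ) : Matrix d d ℂ := 4 • (P G - P G * P G)

/-- `C G = 2 G (1 + G)⁻¹` -/
noncomputable def C (G : Matrix d d ℂ) : Matrix d d ℂ := 2 • (1 - P G)

variable {G : Matrix d d ℂ}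

lemma posDef_one_add (hG : G.PosSemidef) : (1 + G).PosDef := Matrix.PosDef.one.add_posSemidef hG

lemma P_posSemidef (hG : G.PosSemidef) : (P G).PosSemidef :=
  (posDef_one_add hG).inv.posSemidef

lemma P_mul (hG : G.PosSemidef) : P G * (1 + G) = 1 := by
  have := (posDef_one_add hG).isUnit
  exact Matrix.nonsing_inv_mul _ ((Matrix.isUnit_iff_isUnit_det _).1 this)

lemma mul_P (hG : G.PosSemidef) : (1 + G) * P G = 1 := by
  have := (posDef_one_add hG).isUnit
  exact Matrix.mul_nonsing_inv _ ((Matrix.isUnit_iff_isUnit_det _).1 this)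

lemma PG (hG : G.PosSemidef) : P G * G = 1 - P G := by
  have := P_mul hG
  rw [mul_add, mul_one] at this
  rw [eq_sub_iff_add_eq, add_comm]; exact this

lemma GP (hG : G.PosSemidef) : G * P G = 1 - P G := by
  have := mul_P hG
  rw [add_mul, one_mul] at this
  rw [eq_sub_iff_add_eq, add_comm]; exact this

lemma P_star (hG : G.PosSemidef) : (P G)ᴴ = P G := (P_posSemidef hG).isHermitian

/-- conjugation by a Hermitian matrix preserves positivity -/
lemma conj_pos {X Y : Matrix d d ℂ} (hX : X.PosSemidef) (hY : Yᴴ = Y) : (Y * X * Y).PosSemidef := by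
  have := hX.mul_mul_conjTranspose_same Y
  rwa [hY] at this

lemma PGP (hG : G.PosSemidef) : P G * G * P G = P G - P G * P G := by
  rw [PG hG, sub_mul, one_mul]

lemma nsmul_pos {X : Matrix d d ℂ} (hX : X.PosSemidef) (k : ℕ) : (k • X).PosSemidef := by
  rw [← nonneg_iff_posSemidef]
  exact nsmul_nonneg hX.nonneg k

lemma B_pos (hG : G.PosSemidef) : (B G).PosSemidef := by
  unfold B
  rw [← PGP hG]
  exact nsmul_pos (conj_pos hG (P_star hG)) 4

lemma one_sub_B_pos (hG : G.PosSemidef) : (1 - B G).PosSemidef := by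
  have h : 1 - B G = (1 - 2 • P G)ᴴ * (1 - 2 • P G) := by
    rw [conjTranspose_sub, conjTranspose_one, conjTranspose_nsmul, P_star hG]
    unfold B
    noncomm_ring
  rw [h]
  exact posSemidef_conjTranspose_mul_self _

lemma four_G_sub_B_pos (hG : G.PosSemidef) : (4 • G - B G).PosSemidef := by
  have h : 4 • G - B G = 4 • (P G * (2 • (G * G) + G * G * G) * P G) := by
    have h1 : P G * (2 • (G * G) + G * G * G) * P G
        = 2 • ((P G * G) * (G * P G)) + (P G * G) * G * (G * P G) := by noncomm_ring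
    rw [h1, PG hG, GP hG]
    have h2 : (1 - P G) * G * (1 - P G) = G - P G * G - G * P G + P G * G * P G := by noncomm_ring
    rw [h2, PG hG, GP hG]
    unfold B
    noncomm_ring
  rw [h]
  refine nsmul_pos (conj_pos ?_ (P_star hG)) 4
  have hGs : Gᴴ = G := hG.isHermitian
  have h2 : (G * G).PosSemidef := by
    have := posSemidef_conjTranspose_mul_self G
    rwa [hGs] at this
  exact (nsmul_pos h2 2).add (conj_pos hG hGs)

lemma C_pos (hG : G.PosSemidef) : (C G).PosSemidef := by
  unfold C
  have hGs : Gᴴ = G := hG.isHermitian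
  have h2 : (G * G).PosSemidef := by
    have := posSemidef_conjTranspose_mul_self G
    rwa [hGs] at this
  have h : 1 - P G = P G * (G + G * G) * P G := by
    have h1 : P G * (G + G * G) * P G = (P G * G) * P G + (P G * G) * (G * P G) := by noncomm_ring
    rw [h1, PG hG, GP hG]
    noncomm_ring
  rw [h]
  exact nsmul_pos (conj_pos (hG.add h2) (P_star hG)) 2

lemma two_sub_C_pos (hG : G.PosSemidef) : (2 • 1 - C G).PosSemidef := by
  have h : 2 • 1 - C G = 2 • P G := by unfold C; noncomm_ring
  rw [h]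
  exact nsmul_pos (P_posSemidef hG) 2

lemma two_G_sub_C_pos (hG : G.PosSemidef) : (2 • G - C G).PosSemidef := by
  have hGs : Gᴴ = G := hG.isHermitian
  have h : 2 • G - C G = 2 • (G * P G * G) := by
    have h1 : G * P G * G = G * (P G * G) := by noncomm_ring
    rw [h1, PG hG, mul_sub, mul_one, GP hG]
    unfold C
    noncomm_ring
  rw [h]
  exact nsmul_pos (conj_pos (P_posSemidef hG) hGs) 2

lemma one_sub_P_pos (hG : G.PosSemidef) : (1 - P G).PosSemidef := by
  have hGs : Gᴴ = G := hG.isHermitian
  have h2 : (G * G).PosSemidef := by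
    have := posSemidef_conjTranspose_mul_self G
    rwa [hGs] at this
  have h : 1 - P G = P G * (G + G * G) * P G := by
    have h1 : P G * (G + G * G) * P G = (P G * G) * P G + (P G * G) * (G * P G) := by noncomm_ring
    rw [h1, PG hG, GP hG]
    noncomm_ring
  rw [h]
  exact conj_pos (hG.add h2) (P_star hG)

/-- in-level loss -/
lemma in_level_pos (hG : G.PosSemidef) : ((G * G - G) - 2 • (G - C G)).PosSemidef := by
  have hGs : Gᴴ = G := hG.isHermitian
  have h : (G * G - G) - 2 • (G - C G) = (G - 1) * (1 - P G) * (G - 1) := by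
    have h1 : (G - 1) * (1 - P G) * (G - 1)
      = G * G - 2 • G + 1 - (G * (P G * G) - P G * G - G * P G + P G) := by noncomm_ring
    rw [h1, PG hG, GP hG]
    have h2 : G * (1 - P G) = G - G * P G := by noncomm_ring
    rw [h2, GP hG]
    unfold C
    noncomm_ring
  rw [h]
  exact conj_pos (one_sub_P_pos hG) (by rw [conjTranspose_sub, hGs, conjTranspose_one])

end Pool.Agent.Helper340Trace
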