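import Mathlib
import Pool.Agent.Helper340_trace.Core

open Matrix Finset
open scoped ComplexOrder MatrixOrder

namespace Pool.Agent.Helper340Trace

variable {d : Type*} [Fintype d] [DecidableEq d]

/-- used-space operators -/
noncomputable def U (G : ℕ → Matrix d d ℂ) : ℕ → Matrix d d ℂ
  | 0 => 0
  | (m + 1) => U G m + (1 - U G m) * B (G m) * (1 - U G m)

/-- error operators -/
noncomputable def E (G : ℕ → Matrix d d ℂ) : ℕ → Matrix d d ℂ
  | 0 => 0
  | (m + 1) => E G m + 2 • (U G m * B (G m) * U G m)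

/-- partial sums of the level operators -/
noncomputable def Gs (G : ℕ → Matrix d d ℂ) (m : ℕ) : Matrix d d ℂ := ∑ l ∈ range m, G l

variable {G : ℕ → Matrix d d ℂ}

lemma U_bounds (hG : ∀ m, (G m).PosSemidef) (m : ℕ) :
    (U G m).PosSemidef ∧ (1 - U G m).PosSemidef := by
  induction m with
  | zero => simp only [U, sub_zero]; exact ⟨Matrix.PosSemidef.zero, Matrix.PosSemidef.one⟩
  | succ m ih =>
    obtain ⟨h0, h1⟩ := ih
    have hs : (U G m)ᴴ = U G m := h0.isHermitian
    have hs1 : (1 - U G m)ᴴ = 1 - U G m := h1.isHermitian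
    refine ⟨h0.add (conj_pos (B_pos (hG m)) hs1), ?_⟩
    have h : 1 - U G (m + 1) = (1 - U G m) * (1 - B (G m)) * (1 - U G m)
        + (U G m * (1 - U G m) * U G m + (1 - U G m) * U G m * (1 - U G m)) := by
      simp only [U]
      noncomm_ring
    rw [h]
    exact (conj_pos (one_sub_B_pos (hG m)) hs1).add ((conj_pos h1 hs).add (conj_pos h0 hs1))

lemma E_pos (hG : ∀ m, (G m).PosSemidef) (m : ℕ) : (E G m).PosSemidef := by
  induction m with
  | zero => exact Matrix.PosSemidef.zero
  | succ m ih =>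
    have hs : (U G m)ᴴ = U G m := (U_bounds hG m).1.isHermitian
    exact ih.add (nsmul_pos (conj_pos (B_pos (hG m)) hs) 2)

lemma Gs_pos (hG : ∀ m, (G m).PosSemidef) (m : ℕ) : (Gs G m).PosSemidef :=
  posSemidef_sum _ fun i _ => hG i

lemma U_le (hG : ∀ m, (G m).PosSemidef) (m : ℕ) :
    (8 • Gs G m + E G m - U G m).PosSemidef := by
  induction m with
  | zero => simp only [U, E, Gs, range_zero, sum_empty, smul_zero, add_zero, sub_zero]
            exact Matrix.PosSemidef.zero
  | succ m ih =>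
    have hs : (U G m)ᴴ = U G m := (U_bounds hG m).1.isHermitian
    have hs1 : (1 + U G m)ᴴ = 1 + U G m := by rw [conjTranspose_add, conjTranspose_one, hs]
    have h : 8 • Gs G (m + 1) + E G (m + 1) - U G (m + 1)
      = (8 • Gs G m + E G m - U G m) + (2 • (4 • G m - B (G m))
          + (1 + U G m) * B (G m) * (1 + U G m)) := by
      simp only [U, E, Gs, sum_range_succ]
      noncomm_ring
    rw [h]
    exact ih.add ((nsmul_pos (four_G_sub_B_pos (hG m)) 2).add (conj_pos (B_pos (hG m)) hs1))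

lemma re_trace_add (X Y : Matrix d d ℂ) : (X + Y).trace.re = X.trace.re + Y.trace.re := by
  rw [Matrix.trace_add, Complex.add_re]

lemma re_trace_sub (X Y : Matrix d d ℂ) : (X - Y).trace.re = X.trace.re - Y.trace.re := by
  rw [Matrix.trace_sub, Complex.sub_re]

lemma re_trace_nsmul (k : ℕ) (X : Matrix d d ℂ) : (k • X).trace.re = k * X.trace.re := by
  rw [Matrix.trace_smul]; simp

/-- trace of `U B U` is at most trace of `U B` -/
lemma tr_UBU_le {V Y : Matrix d d ℂ} (hV : V.PosSemidef) (hV1 : (1 - V).PosSemidef)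
    (hY : Y.PosSemidef) : (V * Y * V).trace.re ≤ (V * Y).trace.re := by
  have hs : Vᴴ = V := hV.isHermitian
  have hs1 : (1 - V)ᴴ = 1 - V := hV1.isHermitian
  have h : (V * Y).trace.re - (V * Y * V).trace.re
      = ((V * (1 - V) * V + (1 - V) * V * (1 - V)) * Y).trace.re := by
    have e1 : (V * Y * V).trace = (V * V * Y).trace := by
      rw [Matrix.trace_mul_comm, ← mul_assoc]
    rw [e1, ← re_trace_sub]
    congr 2
    noncomm_ring
  have := tr_mul_nonneg ((conj_pos hV1 hs).add (conj_pos hV hs1)) hY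
  linarith

lemma tr_U_mul_le (hG : ∀ m, (G m).PosSemidef) (m : ℕ) {Y : Matrix d d ℂ} (hY : Y.PosSemidef) :
    (U G m * Y).trace.re ≤ 8 * (Gs G m * Y).trace.re + (E G m * Y).trace.re := by
  have h := tr_mul_nonneg (U_le hG m) hY
  rw [sub_mul, add_mul, re_trace_sub, re_trace_add, smul_mul_assoc, re_trace_nsmul] at h
  push_cast at h
  linarith

lemma tr_Gs_B_le (hG : ∀ m, (G m).PosSemidef) (m : ℕ) :
    (Gs G m * B (G m)).trace.re ≤ 4 * (Gs G m * G m).trace.re := by
  have h := tr_mul_nonneg (Gs_pos hG m) (four_G_sub_B_pos (hG m))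
  rw [mul_sub, re_trace_sub, mul_smul_comm, re_trace_nsmul] at h
  push_cast at h
  linarith

lemma tr_Gs_C_le (hG : ∀ m, (G m).PosSemidef) (m : ℕ) :
    (Gs G m * C (G m)).trace.re ≤ 2 * (Gs G m * G m).trace.re := by
  have h := tr_mul_nonneg (Gs_pos hG m) (two_G_sub_C_pos (hG m))
  rw [mul_sub, re_trace_sub, mul_smul_comm, re_trace_nsmul] at h
  push_cast at h
  linarith

lemma tr_E_B_le (hG : ∀ m, (G m).PosSemidef) (m : ℕ) :
    (E G m * B (G m)).trace.re ≤ (E G m).trace.re := by
  have h := tr_mul_nonneg (E_pos hG m) (one_sub_B_pos (hG m))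
  rw [mul_sub, re_trace_sub, mul_one] at h
  linarith

lemma tr_E_C_le (hG : ∀ m, (G m).PosSemidef) (m : ℕ) :
    (E G m * C (G m)).trace.re ≤ 2 * (E G m).trace.re := by
  have h := tr_mul_nonneg (E_pos hG m) (two_sub_C_pos (hG m))
  rw [mul_sub, re_trace_sub, mul_smul_comm, re_trace_nsmul, mul_one] at h
  push_cast at h
  linarith

lemma tr_E_succ (hG : ∀ m, (G m).PosSemidef) (m : ℕ) :
    (E G (m + 1)).trace.re ≤ 3 * (E G m).trace.re + 64 * (Gs G m * G m).trace.re := by
  have h1 := tr_UBU_le (U_bounds hG m).1 (U_bounds hG m).2 (B_pos (hG m))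
  have h2 := tr_U_mul_le hG m (B_pos (hG m))
  have h3 := tr_Gs_B_le hG m
  have h4 := tr_E_B_le hG m
  have h5 : (E G (m + 1)).trace.re = (E G m).trace.re + 2 * (U G m * B (G m) * U G m).trace.re := by
    simp only [E]
    rw [re_trace_add, re_trace_nsmul]
    push_cast
    ring
  linarith

/-- loss at level `m` -/
noncomputable def loss (G : ℕ → Matrix d d ℂ) (m : ℕ) : ℝ :=
  (G m - C (G m) + U G m * C (G m)).trace.re

lemma loss_le (hG : ∀ m, (G m).PosSemidef) (m : ℕ) :
    loss G m ≤ (1 / 2) * (G m * G m - G m).trace.re + 16 * (Gs G m * G m).trace.re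
      + 2 * (E G m).trace.re := by
  have h1 := tr_re_nonneg (in_level_pos (hG m))
  rw [re_trace_sub, re_trace_nsmul] at h1
  push_cast at h1
  have h2 := tr_U_mul_le hG m (C_pos (hG m))
  have h3 := tr_Gs_C_le hG m
  have h4 := tr_E_C_le hG m
  unfold loss
  rw [re_trace_add]
  linarith

theorem total_loss (hG : ∀ m, (G m).PosSemidef) (w : ℕ → ℝ) (hw : ∀ m, 0 ≤ w m)
    (hw6 : ∀ m, 6 * w (m + 1) ≤ w m) (M : ℕ) :
    ∑ m ∈ range M, w m * loss G m + 4 * w M * (E G M).trace.re
      ≤ ∑ m ∈ range M, w m * ((1 / 2) * (G m * G m - G m).trace.re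
          + 59 * (Gs G m * G m).trace.re) := by
  induction M with
  | zero => simp [E]
  | succ M ih =>
    rw [sum_range_succ, sum_range_succ]
    have h1 := mul_le_mul_of_nonneg_left (loss_le hG M) (hw M)
    have h2 := mul_le_mul_of_nonneg_left (tr_E_succ hG M) (hw (M + 1))
    have hE := tr_re_nonneg (E_pos hG M)
    have hGG := tr_mul_nonneg (Gs_pos hG M) (hG M)
    have h3 := mul_le_mul_of_nonneg_right (hw6 M) hE
    have h4 := mul_le_mul_of_nonneg_right (hw6 M) hGG
    have h5 := mul_nonneg (hw M) hGG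
    nlinarith [h1, h2, h3, h4, h5, ih]

end Pool.Agent.Helper340Trace
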