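import Mathlib
import Pool.Agent.Helper340_trace.Recursion

open Matrix Finset
open scoped ComplexOrder MatrixOrder

namespace Pool.Agent.Helper340Trace

variable {d : Type*} [Fintype d] [DecidableEq d] {ι : Type*} [Fintype ι] [DecidableEq ι]

/-- the rank one operator `|x⟩⟨x|` -/
noncomputable def R1 (x : d → ℂ) : Matrix d d ℂ := vecMulVec x (star x)

lemma R1_pos (x : d → ℂ) : (R1 x).PosSemidef := posSemidef_vecMulVec_self_star x

lemma tr_mul_R1 (Y : Matrix d d ℂ) (x : d → ℂ) : (Y * R1 x).trace = star x ⬝ᵥ (Y *ᵥ x) := by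
  unfold R1
  rw [mul_vecMulVec, trace_vecMulVec, dotProduct_comm]

lemma tr_R1 (x : d → ℂ) : (R1 x).trace = star x ⬝ᵥ x := by
  unfold R1
  rw [trace_vecMulVec, dotProduct_comm]

lemma normSq_star_dot (x y : d → ℂ) :
    Complex.normSq (star x ⬝ᵥ y) = Complex.normSq (star y ⬝ᵥ x) := by
  rw [star_dotProduct x y, Complex.star_def, Complex.normSq_conj]

lemma quad_R1 (x y : d → ℂ) :
    star y ⬝ᵥ (R1 x *ᵥ y) = (Complex.normSq (star x ⬝ᵥ y) : ℂ) := by
  unfold R1
  rw [vecMulVec_mulVec, dotProduct_smul, MulOpposite.smul_eq_mul_unop, MulOpposite.unop_op,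
    star_dotProduct y x, Complex.star_def, Complex.normSq_eq_conj_mul_self]

lemma tr_R1_mul_R1 (x y : d → ℂ) :
    (R1 x * R1 y).trace.re = Complex.normSq (star x ⬝ᵥ y) := by
  rw [tr_mul_R1, quad_R1, Complex.ofReal_re]

lemma conj_R1 (Y : Matrix d d ℂ) (x : d → ℂ) : R1 (Y *ᵥ x) = Y * R1 x * Yᴴ := by
  unfold R1
  rw [mul_vecMulVec, vecMulVec_mul, star_mulVec]

section main

variable (v : ι → d → ℂ) (lev : ι → ℕ)

/-- level operators -/
noncomputable def Gl (m : ℕ) : Matrix d d ℂ := ∑ α ∈ univ.filter (fun α => lev α = m), R1 (v α)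

lemma Gl_pos (m : ℕ) : (Gl v lev m).PosSemidef := posSemidef_sum _ fun _ _ => R1_pos _

/-- the conjugating operator of a level -/
noncomputable def Yl (G : ℕ → Matrix d d ℂ) (m : ℕ) : Matrix d d ℂ :=
  (1 - U G m) * (2 • P (G m))

/-- measurement vectors -/
noncomputable def uv (α : ι) : d → ℂ := Yl (Gl v lev) (lev α) *ᵥ v α

lemma Yl_conj (G : ℕ → Matrix d d ℂ) (hG : ∀ m, (G m).PosSemidef) (m : ℕ) :
    Yl G m * G m * (Yl G m)ᴴ = (1 - U G m) * B (G m) * (1 - U G m) := by
  have hs1 : (1 - U G m)ᴴ = 1 - U G m := (U_bounds hG m).2.isHermitian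
  unfold Yl
  rw [conjTranspose_mul, conjTranspose_nsmul, P_star (hG m), hs1]
  have : B (G m) = 4 • (P (G m) * G m * P (G m)) := by unfold B; rw [PGP (hG m)]
  rw [this]
  noncomm_ring

lemma sum_level_R1_uv (m : ℕ) :
    ∑ α ∈ univ.filter (fun α => lev α = m), R1 (uv v lev α)
      = U (Gl v lev) (m + 1) - U (Gl v lev) m := by
  have h : ∑ α ∈ univ.filter (fun α => lev α = m), R1 (uv v lev α)
      = Yl (Gl v lev) m * Gl v lev m * (Yl (Gl v lev) m)ᴴ := by
    conv_rhs => rw [Gl]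
    rw [Finset.mul_sum, Finset.sum_mul]
    refine sum_congr rfl fun α hα => ?_
    rw [mem_filter] at hα
    unfold uv
    rw [conj_R1, hα.2]
  rw [h, Yl_conj _ (Gl_pos v lev)]
  simp only [U]
  abel

lemma sum_R1_uv (M : ℕ) (hM : ∀ α, lev α < M) :
    ∑ α, R1 (uv v lev α) = U (Gl v lev) M := by
  have h1 : ∑ α, R1 (uv v lev α)
      = ∑ m ∈ range M, ∑ α ∈ univ.filter (fun α => lev α = m), R1 (uv v lev α) := by
    rw [sum_fiberwise_of_maps_to]
    intro α _
    exact mem_range.2 (hM α)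
  rw [h1, sum_congr rfl fun m _ => sum_level_R1_uv v lev m, sum_range_sub]
  simp [U]

lemma uv_contraction (x : d → ℂ) :
    ∑ α, Complex.normSq (star (uv v lev α) ⬝ᵥ x) ≤ (star x ⬝ᵥ x).re := by
  obtain ⟨M, hM⟩ : ∃ M, ∀ α, lev α < M := by
    refine ⟨(univ.sup lev) + 1, fun α => ?_⟩
    exact Nat.lt_succ_of_le (le_sup (f := lev) (mem_univ α))
  have h1 : ((∑ α, Complex.normSq (star (uv v lev α) ⬝ᵥ x) : ℝ) : ℂ)
      = star x ⬝ᵥ (U (Gl v lev) M *ᵥ x) := by
    rw [← sum_R1_uv v lev M hM, Matrix.sum_mulVec, dotProduct_sum]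
    push_cast
    exact sum_congr rfl fun α _ => (quad_R1 _ _).symm
  have h2 := (U_bounds (Gl_pos v lev) M).2.dotProduct_mulVec_nonneg x
  rw [sub_mulVec, one_mulVec, dotProduct_sub, ← h1] at h2
  have h3 := (Complex.le_def.1 h2).1
  rw [Complex.sub_re, Complex.ofReal_re, Complex.zero_re] at h3
  linarith

variable {v}

lemma uv_loss_nonneg (hv : ∀ α, star (v α) ⬝ᵥ v α = 1) (α : ι) :
    0 ≤ 1 - (star (v α) ⬝ᵥ uv v lev α).re := by
  have h1 := uv_contraction v lev (v α)
  rw [hv α, Complex.one_re] at h1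
  have h2 : Complex.normSq (star (uv v lev α) ⬝ᵥ v α) ≤ 1 :=
    le_trans (single_le_sum (f := fun β => Complex.normSq (star (uv v lev β) ⬝ᵥ v α))
      (fun β _ => Complex.normSq_nonneg _) (mem_univ α)) h1
  rw [normSq_star_dot] at h2
  have h3 : (star (v α) ⬝ᵥ uv v lev α).re ^ 2 ≤ 1 := by
    refine le_trans ?_ h2
    rw [Complex.normSq_apply]
    nlinarith [sq_nonneg (star (v α) ⬝ᵥ uv v lev α).im]
  nlinarith [sq_nonneg ((star (v α) ⬝ᵥ uv v lev α).re - 1)]

lemma sum_level_loss (hv : ∀ α, star (v α) ⬝ᵥ v α = 1) (m : ℕ) :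
    ∑ α ∈ univ.filter (fun α => lev α = m), (1 - (star (v α) ⬝ᵥ uv v lev α).re)
      = loss (Gl v lev) m := by
  have hY : Yl (Gl v lev) m * Gl v lev m
      = (1 - U (Gl v lev) m) * C (Gl v lev m) := by
    unfold Yl C
    rw [← PG (Gl_pos v lev m)]
    noncomm_ring
  have h1 : ∑ α ∈ univ.filter (fun α => lev α = m), (star (v α) ⬝ᵥ uv v lev α).re
      = ((1 - U (Gl v lev) m) * C (Gl v lev m)).trace.re := by
    rw [← hY]
    conv_rhs => rw [Gl]
    rw [Finset.mul_sum, Matrix.trace_sum, Complex.re_sum]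
    refine sum_congr rfl fun α hα => ?_
    rw [mem_filter] at hα
    rw [tr_mul_R1]
    unfold uv
    rw [hα.2]
  have h2 : ∑ α ∈ univ.filter (fun α => lev α = m), (1 : ℝ) = (Gl v lev m).trace.re := by
    conv_rhs => rw [Gl]
    rw [Matrix.trace_sum, Complex.re_sum]
    refine sum_congr rfl fun α _ => ?_
    rw [tr_R1, hv α, Complex.one_re]
  rw [sum_sub_distrib, h1, h2]
  unfold loss
  rw [re_trace_add, re_trace_sub, sub_mul, one_mul, re_trace_sub]
  ring

lemma tr_level_self (hv : ∀ α, star (v α) ⬝ᵥ v α = 1) (m : ℕ) :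
    (Gl v lev m * Gl v lev m - Gl v lev m).trace.re
      = ∑ α ∈ univ.filter (fun α => lev α = m), ∑ β ∈ univ.filter (fun β => lev β = m ∧ β ≠ α),
          Complex.normSq (star (v α) ⬝ᵥ v β) := by
  have h1 : (Gl v lev m * Gl v lev m).trace.re
      = ∑ α ∈ univ.filter (fun α => lev α = m), ∑ β ∈ univ.filter (fun β => lev β = m),
          Complex.normSq (star (v α) ⬝ᵥ v β) := by
    conv_lhs => rw [Gl]
    rw [Finset.sum_mul, Matrix.trace_sum, Complex.re_sum]
    refine sum_congr rfl fun α _ => ?_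
    rw [Finset.mul_sum, Matrix.trace_sum, Complex.re_sum]
    exact sum_congr rfl fun β _ => tr_R1_mul_R1 _ _
  have h2 : (Gl v lev m).trace.re = ∑ α ∈ univ.filter (fun α => lev α = m), (1 : ℝ) := by
    conv_lhs => rw [Gl]
    rw [Matrix.trace_sum, Complex.re_sum]
    refine sum_congr rfl fun α _ => ?_
    rw [tr_R1, hv α, Complex.one_re]
  rw [re_trace_sub, h1, h2, ← sum_sub_distrib]
  refine sum_congr rfl fun α hα => ?_
  have h3 : univ.filter (fun β => lev β = m ∧ β ≠ α)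
      = (univ.filter (fun β => lev β = m)).erase α := by
    ext β; simp only [mem_filter, mem_univ, true_and, mem_erase, ne_eq]; tauto
  rw [h3]
  rw [← Finset.add_sum_erase _ (fun β => Complex.normSq (star (v α) ⬝ᵥ v β)) hα, hv α]
  simp

lemma tr_level_prev (m : ℕ) :
    (Gs (Gl v lev) m * Gl v lev m).trace.re
      = ∑ β ∈ univ.filter (fun β => lev β = m), ∑ α ∈ univ.filter (fun α => lev α < m),
          Complex.normSq (star (v α) ⬝ᵥ v β) := by
  have h0 : Gs (Gl v lev) m = ∑ α ∈ univ.filter (fun α => lev α < m), R1 (v α) := by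
    unfold Gs
    have : ∀ l ∈ range m, Gl v lev l
        = ∑ α ∈ (univ.filter (fun α => lev α < m)).filter (fun α => lev α = l), R1 (v α) := by
      intro l hl
      rw [mem_range] at hl
      unfold Gl
      refine sum_congr ?_ fun _ _ => rfl
      ext α; simp only [mem_filter, mem_univ, true_and]
      constructor
      · intro h; exact ⟨h ▸ hl, h⟩
      · intro h; exact h.2
    rw [sum_congr rfl this, sum_fiberwise_of_maps_to]
    intro α hα
    rw [mem_filter] at hα
    exact mem_range.2 hα.2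
  rw [h0]
  conv_lhs => rw [Gl]
  rw [Finset.mul_sum, Matrix.trace_sum, Complex.re_sum]
  refine sum_congr rfl fun β _ => ?_
  rw [Finset.sum_mul, Matrix.trace_sum, Complex.re_sum]
  exact sum_congr rfl fun α _ => tr_R1_mul_R1 _ _

end main

end Pool.Agent.Helper340Trace
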