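import Mathlib
import Pool.Agent.Helper340_trace.Vectors

open Matrix Finset
open scoped ComplexOrder MatrixOrder

namespace Pool.Agent.Helper340Trace

variable {d : Type*} [Fintype d] [DecidableEq d] {ι : Type*} [Fintype ι] [DecidableEq ι]

lemma sum_split (lev : ι → ℕ) (K : ι → ι → ℝ) (hK : ∀ α β, K α β = K β α) :
    ∑ α, ∑ β ∈ univ.erase α, K α β
      = ∑ α, ∑ β ∈ univ.filter (fun β => lev β = lev α ∧ β ≠ α), K α β
        + 2 * ∑ β, ∑ α ∈ univ.filter (fun α => lev α < lev β), K α β := by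
  have h1 : ∀ α, ∑ β ∈ univ.erase α, K α β
      = ∑ β ∈ univ.filter (fun β => lev β = lev α ∧ β ≠ α), K α β
        + (∑ β ∈ univ.filter (fun β => lev β < lev α), K β α
          + ∑ β ∈ univ.filter (fun β => lev α < lev β), K α β) := by
    intro α
    have e : univ.erase α = univ.filter (fun β => β ≠ α) := by
      ext β; simp
    rw [e, sum_filter, sum_filter, sum_filter, sum_filter, ← sum_add_distrib, ← sum_add_distrib]
    refine sum_congr rfl fun β _ => ?_
    by_cases hβ : β = α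
    · subst hβ; simp
    · rcases lt_trichotomy (lev β) (lev α) with h | h | h
      · have h1 : ¬ lev β = lev α := by omega
        have h2 : ¬ lev α < lev β := by omega
        simp [hβ, h, h1, h2, hK α β]
      · simp [hβ, h]
      · have h1 : ¬ lev β = lev α := by omega
        have h2 : ¬ lev β < lev α := by omega
        simp [hβ, h, h1, h2]
  rw [sum_congr rfl fun α _ => h1 α, sum_add_distrib, sum_add_distrib]
  have h2 : ∑ α, ∑ β ∈ univ.filter (fun β => lev α < lev β), K α β
      = ∑ β, ∑ α ∈ univ.filter (fun α => lev α < lev β), K α β := by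
    simp only [sum_filter]
    rw [sum_comm]
  rw [h2]
  ring

theorem weighted {v : ι → d → ℂ} (hv : ∀ α, star (v α) ⬝ᵥ v α = 1) (lev : ι → ℕ) (a : ι → ℝ)
    (w : ℕ → ℝ) (hw : ∀ m, 0 ≤ w m) (hw6 : ∀ m, 6 * w (m + 1) ≤ w m)
    (hlo : ∀ α, w (lev α) ≤ a α) (hhi : ∀ α, a α ≤ 6 * w (lev α)) :
    ∑ α, a α * (1 - (star (v α) ⬝ᵥ uv v lev α).re)
      ≤ 177 * ∑ α, ∑ β ∈ univ.erase α, min (a α) (a β) * Complex.normSq (star (v α) ⬝ᵥ v β) := by
  obtain ⟨M, hM⟩ : ∃ M, ∀ α, lev α < M := by
    refine ⟨(univ.sup lev) + 1, fun α => ?_⟩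
    exact Nat.lt_succ_of_le (le_sup (f := lev) (mem_univ α))
  have hanti : ∀ l m, l ≤ m → w m ≤ w l := by
    intro l m hlm
    have : Antitone w := antitone_nat_of_succ_le fun n => by
      have := hw6 n
      have := hw (n + 1)
      linarith
    exact this hlm
  set K : ι → ι → ℝ := fun α β => min (a α) (a β) * Complex.normSq (star (v α) ⬝ᵥ v β) with hKdef
  have hK : ∀ α β, K α β = K β α := by
    intro α β
    simp only [hKdef]
    rw [min_comm, normSq_star_dot]
  have ht : ∑ α, ∑ β ∈ univ.erase α, min (a α) (a β) * Complex.normSq (star (v α) ⬝ᵥ v β)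
      = ∑ α, ∑ β ∈ univ.erase α, K α β := rfl
  rw [ht, sum_split lev K hK]
  -- step 1
  have s1 : ∑ α, a α * (1 - (star (v α) ⬝ᵥ uv v lev α).re)
      ≤ ∑ α, 6 * (w (lev α) * (1 - (star (v α) ⬝ᵥ uv v lev α).re)) := by
    refine sum_le_sum fun α _ => ?_
    have := mul_le_mul_of_nonneg_right (hhi α) (uv_loss_nonneg lev hv α)
    linarith
  have s2 : ∑ α, 6 * (w (lev α) * (1 - (star (v α) ⬝ᵥ uv v lev α).re))
      = 6 * ∑ m ∈ range M, w m * loss (Gl v lev) m := by
    rw [← mul_sum]
    congr 1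
    have h : ∑ α, w (lev α) * (1 - (star (v α) ⬝ᵥ uv v lev α).re)
        = ∑ m ∈ range M, ∑ α ∈ univ.filter (fun α => lev α = m),
            w (lev α) * (1 - (star (v α) ⬝ᵥ uv v lev α).re) := by
      rw [sum_fiberwise_of_maps_to]
      intro α _
      exact mem_range.2 (hM α)
    rw [h]
    refine sum_congr rfl fun m _ => ?_
    rw [← sum_level_loss lev hv m, mul_sum]
    refine sum_congr rfl fun α hα => ?_
    rw [mem_filter] at hα
    rw [hα.2]
  have s3 := total_loss (Gl_pos v lev) w hw hw6 M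
  have hE := mul_nonneg (mul_nonneg (by norm_num : (0 : ℝ) ≤ 4) (hw M))
    (tr_re_nonneg (E_pos (Gl_pos v lev) M))
  -- the two kinds of pair sums
  have s4 : ∑ m ∈ range M, w m * (Gl v lev m * Gl v lev m - Gl v lev m).trace.re
      ≤ ∑ α, ∑ β ∈ univ.filter (fun β => lev β = lev α ∧ β ≠ α), K α β := by
    have h : ∑ α, ∑ β ∈ univ.filter (fun β => lev β = lev α ∧ β ≠ α), K α β
        = ∑ m ∈ range M, ∑ α ∈ univ.filter (fun α => lev α = m),
            ∑ β ∈ univ.filter (fun β => lev β = lev α ∧ β ≠ α), K α β := by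
      rw [sum_fiberwise_of_maps_to]
      intro α _
      exact mem_range.2 (hM α)
    rw [h]
    refine sum_le_sum fun m _ => ?_
    rw [tr_level_self lev hv m, mul_sum]
    refine sum_le_sum fun α hα => ?_
    rw [mem_filter] at hα
    rw [mul_sum, hα.2]
    refine sum_le_sum fun β hβ => ?_
    rw [mem_filter] at hβ
    refine mul_le_mul_of_nonneg_right ?_ (Complex.normSq_nonneg _)
    refine le_min ?_ ?_
    · rw [← hα.2]; exact hlo α
    · rw [← hβ.2.1]; exact hlo β
  have s5 : ∑ m ∈ range M, w m * (Gs (Gl v lev) m * Gl v lev m).trace.re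
      ≤ ∑ β, ∑ α ∈ univ.filter (fun α => lev α < lev β), K α β := by
    have h : ∑ β, ∑ α ∈ univ.filter (fun α => lev α < lev β), K α β
        = ∑ m ∈ range M, ∑ β ∈ univ.filter (fun β => lev β = m),
            ∑ α ∈ univ.filter (fun α => lev α < lev β), K α β := by
      rw [sum_fiberwise_of_maps_to]
      intro α _
      exact mem_range.2 (hM α)
    rw [h]
    refine sum_le_sum fun m _ => ?_
    rw [tr_level_prev lev m, mul_sum]
    refine sum_le_sum fun β hβ => ?_
    rw [mem_filter] at hβ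
    rw [mul_sum, hβ.2]
    refine sum_le_sum fun α hα => ?_
    rw [mem_filter] at hα
    refine mul_le_mul_of_nonneg_right ?_ (Complex.normSq_nonneg _)
    refine le_min ?_ ?_
    · exact (hanti _ _ hα.2.le).trans (hlo α)
    · rw [← hβ.2]; exact hlo β
  have s6 : ∑ m ∈ range M, w m * ((1 / 2) * (Gl v lev m * Gl v lev m - Gl v lev m).trace.re
          + 59 * (Gs (Gl v lev) m * Gl v lev m).trace.re)
      = (1 / 2) * ∑ m ∈ range M, w m * (Gl v lev m * Gl v lev m - Gl v lev m).trace.re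
        + 59 * ∑ m ∈ range M, w m * (Gs (Gl v lev) m * Gl v lev m).trace.re := by
    rw [mul_sum, mul_sum, ← sum_add_distrib]
    exact sum_congr rfl fun m _ => by ring
  have hX : 0 ≤ ∑ α, ∑ β ∈ univ.filter (fun β => lev β = lev α ∧ β ≠ α), K α β := by
    refine sum_nonneg fun α _ => sum_nonneg fun β _ => ?_
    have h0 : ∀ α, 0 ≤ a α := fun α => (hw _).trans (hlo α)
    exact mul_nonneg (le_min (h0 _) (h0 _)) (Complex.normSq_nonneg _)
  rw [s6] at s3
  linarith

/-- every nonnegative weight function on a finite type has a level structure -/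
lemma exists_levels (a : ι → ℝ) (ha : ∀ α, 0 ≤ a α) :
    ∃ (lev : ι → ℕ) (w : ℕ → ℝ), (∀ m, 0 ≤ w m) ∧ (∀ m, 6 * w (m + 1) ≤ w m) ∧
      (∀ α, w (lev α) ≤ a α) ∧ (∀ α, a α ≤ 6 * w (lev α)) := by
  classical
  set A : ℝ := ∑ α, a α with hA
  have hA0 : 0 ≤ A := sum_nonneg fun α _ => ha α
  have haA : ∀ α, a α ≤ A := fun α => single_le_sum (fun β _ => ha β) (mem_univ α)
  have hex : ∀ α, 0 < a α → ∃ m : ℕ, A * (1 / 6) ^ m ≤ a α := by
    intro α hα
    have hApos : 0 < A := lt_of_lt_of_le hα (haA α)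
    obtain ⟨m, hm⟩ := exists_pow_lt_of_lt_one (div_pos hα hApos) (by norm_num : (1 / 6 : ℝ) < 1)
    refine ⟨m, ?_⟩
    rw [lt_div_iff₀ hApos] at hm
    linarith
  set f : ι → ℕ := fun α => if h : 0 < a α then Nat.find (hex α h) else 0 with hf
  set M : ℕ := univ.sup f + 1 with hM
  have hfM : ∀ α, f α < M := fun α => Nat.lt_succ_of_le (le_sup (f := f) (mem_univ α))
  refine ⟨fun α => if 0 < a α then f α else M, fun m => if m < M then A * (1 / 6) ^ m else 0,
    ?_, ?_, ?_, ?_⟩
  · intro m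
    simp only
    split_ifs
    · positivity
    · exact le_rfl
  · intro m
    simp only
    by_cases h : m + 1 < M
    · have h' : m < M := by omega
      rw [if_pos h, if_pos h', pow_succ]
      linarith
    · rw [if_neg h, mul_zero]
      split_ifs
      · positivity
      · exact le_rfl
  · intro α
    simp only
    by_cases h : 0 < a α
    · rw [if_pos h, if_pos (hfM α)]
      simp only [hf, dif_pos h]
      exact Nat.find_spec (hex α h)
    · rw [if_neg h, if_neg (lt_irrefl _)]
      exact ha α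
  · intro α
    simp only
    by_cases h : 0 < a α
    · rw [if_pos h, if_pos (hfM α)]
      simp only [hf, dif_pos h]
      rcases Nat.eq_zero_or_pos (Nat.find (hex α h)) with h0 | h0
      · rw [h0, pow_zero]
        linarith [haA α]
      · obtain ⟨k, hk⟩ := Nat.exists_eq_succ_of_ne_zero h0.ne'
        have h1 := Nat.find_min (hex α h) (m := k) (by omega)
        rw [not_le] at h1
        rw [hk, Nat.succ_eq_add_one, pow_succ]
        linarith
    · rw [if_neg h, if_neg (lt_irrefl _)]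
      have := le_antisymm (not_lt.1 h) (ha α)
      rw [this]; simp

theorem exists_contraction {v : ι → d → ℂ} (hv : ∀ α, star (v α) ⬝ᵥ v α = 1) (a : ι → ℝ)
    (ha : ∀ α, 0 ≤ a α) :
    ∃ u : ι → d → ℂ, (∀ x : d → ℂ, ∑ α, Complex.normSq (star (u α) ⬝ᵥ x) ≤ (star x ⬝ᵥ x).re) ∧
      ∑ α, a α * (1 - (star (v α) ⬝ᵥ u α).re)
        ≤ 177 * ∑ α, ∑ β ∈ univ.erase α, min (a α) (a β) * Complex.normSq (star (v α) ⬝ᵥ v β) := by
  obtain ⟨lev, w, hw, hw6, hlo, hhi⟩ := exists_levels a ha
  exact ⟨uv v lev, uv_contraction v lev, weighted hv lev a w hw hw6 hlo hhi⟩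

end Pool.Agent.Helper340Trace
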