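import Mathlib
import Pool.Agent.Helper340_trace.Weighted

open Matrix Finset
open scoped ComplexOrder MatrixOrder

namespace Pool.Agent.Helper340Trace

variable {d : Type*} [Fintype d] [DecidableEq d]

/-- orthonormal basis, as vectors -/
structure ONB (x : d → d → ℂ) : Prop where
  orth : ∀ i j, star (x i) ⬝ᵥ x j = if i = j then 1 else 0
  compl : ∑ i, R1 (x i) = 1

lemma exists_spec {A : Matrix d d ℂ} (hA : A.IsHermitian) :
    ∃ (x : d → d → ℂ) (l : d → ℝ), ONB x ∧ A = ∑ i, (l i : ℂ) • R1 (x i) ∧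
      (A.PosSemidef → ∀ i, 0 ≤ l i) := by
  set V : Matrix d d ℂ := (hA.eigenvectorUnitary : Matrix d d ℂ) with hV
  have h1 : Vᴴ * V = 1 := by
    have := Unitary.coe_star_mul_self hA.eigenvectorUnitary
    exact this
  have h2 : V * Vᴴ = 1 := by
    have := Unitary.coe_mul_star_self hA.eigenvectorUnitary
    exact this
  refine ⟨fun i k => V k i, hA.eigenvalues, ⟨?_, ?_⟩, ?_, fun h => h.eigenvalues_nonneg⟩
  · intro i j
    have := congrFun (congrFun h1 i) j
    rw [Matrix.mul_apply, Matrix.one_apply] at this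
    rw [← this]
    rfl
  · ext k l
    have := congrFun (congrFun h2 k) l
    rw [Matrix.mul_apply] at this
    rw [← this, Matrix.sum_apply]
    rfl
  · conv_lhs => rw [hA.spectral_theorem, Unitary.conjStarAlgAut_apply]
    ext k l
    rw [Matrix.sum_apply, Matrix.mul_apply]
    refine sum_congr rfl fun i _ => ?_
    rw [Matrix.mul_diagonal, Matrix.smul_apply]
    simp only [Function.comp, R1, vecMulVec_apply, Pi.star_apply, smul_eq_mul, hV]
    have : (star (hA.eigenvectorUnitary : Matrix d d ℂ)) i l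
        = star ((hA.eigenvectorUnitary : Matrix d d ℂ) l i) := rfl
    rw [this]
    simp only [Complex.coe_algebraMap]
    ring

variable {x : d → d → ℂ} (hx : ONB x)

include hx

lemma ONB.R1_mul_R1 (i j : d) : R1 (x i) * R1 (x j) = if i = j then R1 (x i) else 0 := by
  unfold R1
  rw [vecMulVec_mul_vecMulVec, hx.orth i j]
  split_ifs with h
  · rw [one_smul, h]
  · rw [zero_smul, vecMulVec_zero]

lemma ONB.R1_mulVec (i j : d) : R1 (x i) *ᵥ x j = if i = j then x i else 0 := by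
  unfold R1
  rw [vecMulVec_mulVec, hx.orth i j]
  split_ifs with h
  · simp
  · simp

lemma ONB.spec_mul (l m : d → ℝ) :
    (∑ i, (l i : ℂ) • R1 (x i)) * (∑ i, (m i : ℂ) • R1 (x i))
      = ∑ i, ((l i * m i : ℝ) : ℂ) • R1 (x i) := by
  rw [Finset.sum_mul]
  refine sum_congr rfl fun i _ => ?_
  rw [Finset.mul_sum, sum_eq_single i]
  · rw [smul_mul_smul_comm, hx.R1_mul_R1, if_pos rfl]
    push_cast; rfl
  · intro j _ hj
    rw [smul_mul_smul_comm, hx.R1_mul_R1, if_neg (Ne.symm hj), smul_zero]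
  · intro h; exact absurd (mem_univ i) h

lemma ONB.tr_R1 (i : d) : (R1 (x i)).trace = 1 := by
  rw [Helper340Trace.tr_R1, hx.orth, if_pos rfl]

lemma ONB.tr_spec (l : d → ℝ) : (∑ i, (l i : ℂ) • R1 (x i)).trace.re = ∑ i, l i := by
  rw [Matrix.trace_sum, Complex.re_sum]
  refine sum_congr rfl fun i _ => ?_
  rw [Matrix.trace_smul, hx.tr_R1, smul_eq_mul, mul_one, Complex.ofReal_re]

lemma ONB.tr_eq (A : Matrix d d ℂ) : A.trace = ∑ i, star (x i) ⬝ᵥ (A *ᵥ x i) := by
  have : A.trace = (A * ∑ i, R1 (x i)).trace := by rw [hx.compl, mul_one]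
  rw [this, Finset.mul_sum, Matrix.trace_sum]
  exact sum_congr rfl fun i _ => tr_mul_R1 _ _

lemma ONB.mulVec_spec (l : d → ℝ) (i : d) :
    (∑ i, (l i : ℂ) • R1 (x i)) *ᵥ x i = (l i : ℂ) • x i := by
  rw [Matrix.sum_mulVec, sum_eq_single i]
  · rw [smul_mulVec, hx.R1_mulVec, if_pos rfl]
  · intro j _ hj
    rw [smul_mulVec, hx.R1_mulVec, if_neg hj, smul_zero]
  · intro h; exact absurd (mem_univ i) h

lemma ONB.parseval (y : d → ℂ) :
    (∑ i, Complex.normSq (star (x i) ⬝ᵥ y)) = (star y ⬝ᵥ y).re := by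
  have h : ((∑ i, Complex.normSq (star (x i) ⬝ᵥ y) : ℝ) : ℂ) = star y ⬝ᵥ y := by
    have : star y ⬝ᵥ y = star y ⬝ᵥ ((∑ i, R1 (x i)) *ᵥ y) := by rw [hx.compl, one_mulVec]
    rw [this, Matrix.sum_mulVec, dotProduct_sum]
    push_cast
    exact sum_congr rfl fun i _ => (quad_R1 _ _).symm
  rw [← h, Complex.ofReal_re]

lemma ONB.expand (y z : d → ℂ) :
    star y ⬝ᵥ z = ∑ i, (star y ⬝ᵥ x i) * (star (x i) ⬝ᵥ z) := by
  have : z = (∑ i, R1 (x i)) *ᵥ z := by rw [hx.compl, one_mulVec]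
  conv_lhs => rw [this]
  rw [Matrix.sum_mulVec, dotProduct_sum]
  refine sum_congr rfl fun i _ => ?_
  unfold R1
  rw [vecMulVec_mulVec, dotProduct_smul, MulOpposite.smul_eq_mul_unop, MulOpposite.unop_op]

lemma ONB.quad_spec (l : d → ℝ) (y : d → ℂ) :
    (star y ⬝ᵥ ((∑ i, (l i : ℂ) • R1 (x i)) *ᵥ y)).re
      = ∑ i, l i * Complex.normSq (star (x i) ⬝ᵥ y) := by
  rw [Matrix.sum_mulVec, dotProduct_sum, Complex.re_sum]
  refine sum_congr rfl fun i _ => ?_
  rw [smul_mulVec, dotProduct_smul, quad_R1, smul_eq_mul, ← Complex.ofReal_mul, Complex.ofReal_re]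

lemma ONB.spec_pos {l : d → ℝ} (hl : ∀ i, 0 ≤ l i) : (∑ i, (l i : ℂ) • R1 (x i)).PosSemidef := by
  refine posSemidef_sum _ fun i _ => (R1_pos (x i)).smul ?_
  exact_mod_cast hl i

end Pool.Agent.Helper340Trace
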