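import Mathlib
import Pool.Agent.Helper340_trace.Spectral

open Matrix Finset
open scoped ComplexOrder MatrixOrder

namespace Pool.Agent.Helper340Trace

variable {d : Type*} [Fintype d] [DecidableEq d] {ι : Type*} [Fintype ι] [DecidableEq ι]

/-- lower bound for `Tr √(∑ A_j²)` by a measurement -/
lemma sqrt_lower {A : ι → Matrix d d ℂ} {x : ι → d → d → ℂ} {l : ι → d → ℝ}
    (hx : ∀ j, ONB (x j)) (hAx : ∀ j, A j = ∑ i, (l j i : ℂ) • R1 (x j i))
    (hl : ∀ j i, 0 ≤ l j i) (u : ι × d → d → ℂ)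
    (hu : ∀ y : d → ℂ, ∑ α, Complex.normSq (star (u α) ⬝ᵥ y) ≤ (star y ⬝ᵥ y).re) :
    ∑ α : ι × d, l α.1 α.2 * (star (x α.1 α.2) ⬝ᵥ u α).re
      ≤ (CFC.sqrt (∑ j, A j ^ 2)).trace.re := by
  have hA : ∀ j, (A j).PosSemidef := fun j => by
    rw [hAx j]; exact (hx j).spec_pos (hl j)
  set S : Matrix d d ℂ := ∑ j, A j ^ 2 with hS
  have hSpos : S.PosSemidef := posSemidef_sum _ fun j _ => (hA j).pow 2
  set R : Matrix d d ℂ := CFC.sqrt S with hR
  have hRR : R * R = S := CFC.sqrt_mul_sqrt_self S hSpos.nonneg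
  have hRpos : R.PosSemidef := (CFC.sqrt_nonneg S).posSemidef
  obtain ⟨f, r, hf, hRf, hr⟩ := exists_spec hRpos.isHermitian
  have hr0 := hr hRpos
  have hS2 : ∀ s, ∑ α : ι × d, (l α.1 α.2 * ‖star (x α.1 α.2) ⬝ᵥ f s‖) ^ 2 = r s ^ 2 := by
    intro s
    have e1 : (star (f s) ⬝ᵥ (S *ᵥ f s)).re
        = ∑ j, ∑ i, l j i * l j i * Complex.normSq (star (x j i) ⬝ᵥ f s) := by
      rw [hS, Matrix.sum_mulVec, dotProduct_sum, Complex.re_sum]
      refine sum_congr rfl fun j _ => ?_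
      rw [sq, hAx j, (hx j).spec_mul, (hx j).quad_spec]
    have e2 : (star (f s) ⬝ᵥ (S *ᵥ f s)).re = r s ^ 2 := by
      rw [← hRR, hRf, hf.spec_mul, hf.quad_spec, sum_eq_single s]
      · rw [hf.orth, if_pos rfl, map_one, mul_one, sq]
      · intro b _ hb
        rw [hf.orth, if_neg hb, map_zero, mul_zero]
      · intro h; exact absurd (mem_univ s) h
    rw [← e2, e1, Fintype.sum_prod_type]
    refine sum_congr rfl fun j _ => sum_congr rfl fun i _ => ?_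
    rw [mul_pow, Complex.normSq_eq_norm_sq]
    ring
  have hU2 : ∀ s, ∑ α : ι × d, ‖star (f s) ⬝ᵥ u α‖ ^ 2 ≤ 1 := by
    intro s
    have h := hu (f s)
    rw [hf.orth, if_pos rfl, Complex.one_re] at h
    refine le_trans (le_of_eq ?_) h
    refine sum_congr rfl fun α _ => ?_
    rw [← Complex.normSq_eq_norm_sq, normSq_star_dot]
  have key : ∀ s, ∑ α : ι × d, l α.1 α.2 * ((star (x α.1 α.2) ⬝ᵥ f s) * (star (f s) ⬝ᵥ u α)).re
      ≤ r s := by
    intro s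
    have h1 : ∑ α : ι × d, l α.1 α.2 * ((star (x α.1 α.2) ⬝ᵥ f s) * (star (f s) ⬝ᵥ u α)).re
        ≤ ∑ α : ι × d, (l α.1 α.2 * ‖star (x α.1 α.2) ⬝ᵥ f s‖) * ‖star (f s) ⬝ᵥ u α‖ := by
      refine sum_le_sum fun α _ => ?_
      rw [mul_assoc, ← norm_mul]
      exact mul_le_mul_of_nonneg_left (Complex.re_le_norm _) (hl _ _)
    refine h1.trans ?_
    have h2 := Finset.sum_mul_sq_le_sq_mul_sq (univ : Finset (ι × d))
      (fun α => l α.1 α.2 * ‖star (x α.1 α.2) ⬝ᵥ f s‖) (fun α => ‖star (f s) ⬝ᵥ u α‖)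
    rw [hS2 s] at h2
    have h3 : (∑ α : ι × d, (l α.1 α.2 * ‖star (x α.1 α.2) ⬝ᵥ f s‖) * ‖star (f s) ⬝ᵥ u α‖) ^ 2
        ≤ r s ^ 2 := by
      refine h2.trans ?_
      have := mul_le_mul_of_nonneg_left (hU2 s) (sq_nonneg (r s))
      linarith
    exact abs_le_of_sq_le_sq' h3 (hr0 s) |>.2
  have htr : R.trace.re = ∑ s, r s := by
    rw [hRf, hf.tr_spec]
  rw [htr]
  have h4 : ∑ α : ι × d, l α.1 α.2 * (star (x α.1 α.2) ⬝ᵥ u α).re
      = ∑ s, ∑ α : ι × d, l α.1 α.2 * ((star (x α.1 α.2) ⬝ᵥ f s) * (star (f s) ⬝ᵥ u α)).re := by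
    rw [sum_comm]
    refine sum_congr rfl fun α _ => ?_
    rw [hf.expand (x α.1 α.2) (u α), Complex.re_sum, mul_sum]
  rw [h4]
  exact sum_le_sum fun s _ => key s

/-- the trace norm `Tr √(Xᴴ X)` -/
noncomputable def tn (X : Matrix d d ℂ) : ℝ := (CFC.sqrt (Xᴴ * X)).trace.re

lemma tn_eq {x : d → d → ℂ} {l : d → ℝ} (hx : ONB x) :
    tn (∑ i, (l i : ℂ) • R1 (x i)) = ∑ i, |l i| := by
  have hH : (∑ i, (l i : ℂ) • R1 (x i))ᴴ = ∑ i, (l i : ℂ) • R1 (x i) := by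
    rw [conjTranspose_sum]
    refine sum_congr rfl fun i _ => ?_
    rw [conjTranspose_smul, (R1_pos (x i)).isHermitian]
    simp
  unfold tn
  rw [hH, hx.spec_mul]
  have h : CFC.sqrt (∑ i, ((l i * l i : ℝ) : ℂ) • R1 (x i)) = ∑ i, ((|l i| : ℝ) : ℂ) • R1 (x i) := by
    refine CFC.sqrt_unique ?_ (hx.spec_pos fun i => abs_nonneg (l i)).nonneg
    rw [hx.spec_mul]
    refine sum_congr rfl fun i _ => ?_
    rw [abs_mul_abs_self]
  rw [h, hx.tr_spec]

/-- projection onto a set of basis vectors -/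
noncomputable def Tp (z : d → d → ℂ) (I : Finset d) : Matrix d d ℂ := ∑ i ∈ I, R1 (z i)

lemma Tp_star (z : d → d → ℂ) (I : Finset d) : (Tp z I)ᴴ = Tp z I := by
  unfold Tp
  rw [conjTranspose_sum]
  exact sum_congr rfl fun i _ => (R1_pos (z i)).isHermitian

lemma Tp_sq {z : d → d → ℂ} (hz : ONB z) (I : Finset d) : Tp z I * Tp z I = Tp z I := by
  unfold Tp
  rw [Finset.sum_mul]
  refine sum_congr rfl fun i hi => ?_
  rw [Finset.mul_sum, sum_eq_single i]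
  · rw [hz.R1_mul_R1, if_pos rfl]
  · intro j _ hj
    rw [hz.R1_mul_R1, if_neg (Ne.symm hj)]
  · intro h; exact absurd hi h

lemma sum_proj {x y z : d → d → ℂ} {a : d → ℝ} (hx : ONB x) (hy : ONB y) (hz : ONB z)
    (I : Finset d) :
    ∑ p, ∑ q, a p * Complex.normSq (star (x p) ⬝ᵥ (Tp z I *ᵥ y q))
      = ∑ i ∈ I, (star (z i) ⬝ᵥ ((∑ p, (a p : ℂ) • R1 (x p)) *ᵥ z i)).re := by
  have h1 : ∀ p, ∑ q, a p * Complex.normSq (star (x p) ⬝ᵥ (Tp z I *ᵥ y q))
      = a p * (star (x p) ⬝ᵥ (Tp z I *ᵥ x p)).re := by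
    intro p
    rw [← mul_sum]
    congr 1
    have h2 : ∀ q, Complex.normSq (star (x p) ⬝ᵥ (Tp z I *ᵥ y q))
        = Complex.normSq (star (y q) ⬝ᵥ (Tp z I *ᵥ x p)) := by
      intro q
      rw [normSq_star_dot (y q) (Tp z I *ᵥ x p), star_mulVec, Tp_star, dotProduct_mulVec]
    rw [sum_congr rfl fun q _ => h2 q, hy.parseval, star_mulVec, Tp_star, ← dotProduct_mulVec,
      mulVec_mulVec, Tp_sq hz]
  rw [sum_congr rfl fun p _ => h1 p]
  have h3 : ∀ p, a p * (star (x p) ⬝ᵥ (Tp z I *ᵥ x p)).re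
      = ∑ i ∈ I, a p * Complex.normSq (star (x p) ⬝ᵥ z i) := by
    intro p
    unfold Tp
    rw [Matrix.sum_mulVec, dotProduct_sum, Complex.re_sum, mul_sum]
    refine sum_congr rfl fun i _ => ?_
    rw [quad_R1, Complex.ofReal_re, normSq_star_dot]
  rw [sum_congr rfl fun p _ => h3 p, sum_comm]
  refine sum_congr rfl fun i _ => ?_
  rw [hx.quad_spec]

/-- Nussbaum-Szkola type lower bound for the pairwise error -/
lemma pair_bound {x y : d → d → ℂ} {a b : d → ℝ} (hx : ONB x) (hy : ONB y)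
    (ha : ∀ i, 0 ≤ a i) (hb : ∀ i, 0 ≤ b i) {A B : Matrix d d ℂ}
    (hA : A = ∑ i, (a i : ℂ) • R1 (x i)) (hB : B = ∑ i, (b i : ℂ) • R1 (y i)) :
    ∑ p, ∑ q, min (a p) (b q) * Complex.normSq (star (x p) ⬝ᵥ y q)
      ≤ (A + B).trace.re - tn (A - B) := by
  have hApos : A.PosSemidef := by rw [hA]; exact hx.spec_pos ha
  have hBpos : B.PosSemidef := by rw [hB]; exact hy.spec_pos hb
  have hXh : (A - B).IsHermitian := hApos.isHermitian.sub hBpos.isHermitian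
  obtain ⟨z, c, hz, hc, -⟩ := exists_spec hXh
  set α : d → ℝ := fun i => (star (z i) ⬝ᵥ (A *ᵥ z i)).re with hα
  set β : d → ℝ := fun i => (star (z i) ⬝ᵥ (B *ᵥ z i)).re with hβ
  have hα0 : ∀ i, 0 ≤ α i := fun i => (Complex.le_def.1 (hApos.dotProduct_mulVec_nonneg (z i))).1
  have hβ0 : ∀ i, 0 ≤ β i := fun i => (Complex.le_def.1 (hBpos.dotProduct_mulVec_nonneg (z i))).1
  have hcαβ : ∀ i, c i = α i - β i := by
    intro i
    have h1 : (star (z i) ⬝ᵥ ((A - B) *ᵥ z i)).re = α i - β i := by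
      rw [sub_mulVec, dotProduct_sub, Complex.sub_re]
    have h2 : (star (z i) ⬝ᵥ ((A - B) *ᵥ z i)).re = c i := by
      rw [hc, hz.quad_spec, sum_eq_single i]
      · rw [hz.orth, if_pos rfl, map_one, mul_one]
      · intro j _ hj
        rw [hz.orth, if_neg hj, map_zero, mul_zero]
      · intro h; exact absurd (mem_univ i) h
    linarith
  have htr : (A + B).trace.re = ∑ i, (α i + β i) := by
    rw [hz.tr_eq (A + B), Complex.re_sum]
    refine sum_congr rfl fun i _ => ?_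
    rw [add_mulVec, dotProduct_add, Complex.add_re]
  have htn : tn (A - B) = ∑ i, |α i - β i| := by
    rw [hc, tn_eq hz]
    exact sum_congr rfl fun i _ => by rw [hcαβ i]
  set I : Finset d := univ.filter (fun i => α i ≤ β i) with hI
  have hrhs : (A + B).trace.re - tn (A - B) = 2 * ∑ i ∈ I, α i + 2 * ∑ i ∈ Iᶜ, β i := by
    rw [htr, htn, ← sum_sub_distrib, ← Finset.sum_add_sum_compl I, mul_sum, mul_sum]
    congr 1
    · refine sum_congr rfl fun i hi => ?_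
      rw [hI, mem_filter] at hi
      rw [abs_of_nonpos (by linarith [hi.2])]
      ring
    · refine sum_congr rfl fun i hi => ?_
      rw [mem_compl, hI, mem_filter] at hi
      have : β i < α i := by
        by_contra h
        exact hi ⟨mem_univ i, not_lt.1 h⟩
      rw [abs_of_pos (by linarith)]
      ring
  have hT : Tp z I + Tp z Iᶜ = 1 := by
    unfold Tp
    rw [Finset.sum_add_sum_compl]
    exact hz.compl
  have hsplit : ∀ p q, min (a p) (b q) * Complex.normSq (star (x p) ⬝ᵥ y q)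
      ≤ 2 * (a p * Complex.normSq (star (x p) ⬝ᵥ (Tp z I *ᵥ y q)))
        + 2 * (b q * Complex.normSq (star (x p) ⬝ᵥ (Tp z Iᶜ *ᵥ y q))) := by
    intro p q
    have h1 : star (x p) ⬝ᵥ y q = star (x p) ⬝ᵥ (Tp z I *ᵥ y q)
        + star (x p) ⬝ᵥ (Tp z Iᶜ *ᵥ y q) := by
      rw [← dotProduct_add, ← add_mulVec, hT, one_mulVec]
    rw [h1]
    set s := star (x p) ⬝ᵥ (Tp z I *ᵥ y q)
    set t := star (x p) ⬝ᵥ (Tp z Iᶜ *ᵥ y q)
    have h2 : Complex.normSq (s + t) ≤ 2 * Complex.normSq s + 2 * Complex.normSq t := by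
      simp only [Complex.normSq_apply, Complex.add_re, Complex.add_im]
      nlinarith [sq_nonneg (s.re - t.re), sq_nonneg (s.im - t.im)]
    have hm0 : 0 ≤ min (a p) (b q) := le_min (ha p) (hb q)
    have h3 := mul_le_mul_of_nonneg_left h2 hm0
    have h4 := mul_le_mul_of_nonneg_right (min_le_left (a p) (b q)) (Complex.normSq_nonneg s)
    have h5 := mul_le_mul_of_nonneg_right (min_le_right (a p) (b q)) (Complex.normSq_nonneg t)
    linarith
  have hsum : ∑ p, ∑ q, min (a p) (b q) * Complex.normSq (star (x p) ⬝ᵥ y q)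
      ≤ 2 * (∑ p, ∑ q, a p * Complex.normSq (star (x p) ⬝ᵥ (Tp z I *ᵥ y q)))
        + 2 * (∑ p, ∑ q, b q * Complex.normSq (star (x p) ⬝ᵥ (Tp z Iᶜ *ᵥ y q))) := by
    rw [mul_sum, mul_sum, ← sum_add_distrib]
    refine sum_le_sum fun p _ => ?_
    rw [mul_sum, mul_sum, ← sum_add_distrib]
    exact sum_le_sum fun q _ => hsplit p q
  have e1 := sum_proj (a := a) hx hy hz I
  have e2 : ∑ p, ∑ q, b q * Complex.normSq (star (x p) ⬝ᵥ (Tp z Iᶜ *ᵥ y q))
      = ∑ i ∈ Iᶜ, (star (z i) ⬝ᵥ ((∑ p, (b p : ℂ) • R1 (y p)) *ᵥ z i)).re := by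
    rw [← sum_proj (a := b) hy hx hz Iᶜ, sum_comm]
    refine sum_congr rfl fun q _ => sum_congr rfl fun p _ => ?_
    congr 1
    rw [normSq_star_dot (y q) (Tp z Iᶜ *ᵥ x p), star_mulVec, Tp_star, dotProduct_mulVec]
  rw [e1, e2, ← hA, ← hB] at hsum
  rw [hrhs]
  exact hsum

end Pool.Agent.Helper340Trace
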