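import Mathlib
import Pool.Agent.Helper340_trace.Bounds

open Matrix Finset
open scoped ComplexOrder MatrixOrder

namespace Pool.Agent.Helper340Trace

variable {ι : Type*} [Fintype ι] [DecidableEq ι]

/-- trace of a product, entrywise -/
lemma re_tr_mul (A B : Matrix ι ι ℂ) : (A * B).trace.re = ∑ i, ∑ l, (A i l * B l i).re := by
  simp only [Matrix.trace, Matrix.diag, Matrix.mul_apply, Complex.re_sum]

/-- The deficit inequality: `Y ≥ 0` with `(Y²)_{ii} = x_i²`, `x_i > 0`; then
`∑ x_i - Tr Y ≤ ∑_{i ≠ l} |(Y²)_{il}|² / (x_i x_l (x_i + x_l))`. -/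
lemma deficit_le {x : ι → ℝ} (hx : ∀ i, 0 < x i) {Y : Matrix ι ι ℂ} (hY : Y.PosSemidef)
    (hd : ∀ i, (Y * Y) i i = ((x i ^ 2 : ℝ) : ℂ)) :
    ∑ i, x i - Y.trace.re ≤ ∑ i, ∑ l ∈ univ.erase i,
      Complex.normSq ((Y * Y) i l) / (x i * x l * (x i + x l)) := by
  set X : Matrix ι ι ℂ := diagonal (fun i => (x i : ℂ)) with hX
  set W : Matrix ι ι ℂ := diagonal (fun i => ((x i)⁻¹ : ℂ)) with hW
  have hx0 : ∀ i, (x i : ℂ) ≠ 0 := fun i => by exact_mod_cast (hx i).ne'
  have hXW : X * W = 1 := by
    rw [hX, hW, diagonal_mul_diagonal]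
    ext i j
    by_cases h : i = j
    · subst h; simp [hx0 i]
    · simp [h]
  have hWX : W * X = 1 := by
    rw [hX, hW, diagonal_mul_diagonal]
    ext i j
    by_cases h : i = j
    · subst h; simp [hx0 i]
    · simp [h]
  have hWs : Wᴴ = W := by
    rw [hW, diagonal_conjTranspose]
    congr 1
    ext i
    simp
  have hXs : Xᴴ = X := by
    rw [hX, diagonal_conjTranspose]
    congr 1
    ext i
    simp
  set Z : Matrix ι ι ℂ := Y - X with hZ
  have hYs : Yᴴ = Y := hY.isHermitian
  have hZs : Zᴴ = Z := by rw [hZ, conjTranspose_sub, hYs, hXs]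
  have hYZ : Y = X + Z := by rw [hZ]; abel
  set K : Matrix ι ι ℂ := Y * Y - X * X with hK
  have hK2 : K = X * Z + Z * X + Z * Z := by rw [hK, hYZ]; noncomm_ring
  have hXX : ∀ i l, (X * X) i l = if i = l then ((x i ^ 2 : ℝ) : ℂ) else 0 := by
    intro i l
    rw [hX, diagonal_mul_diagonal]
    by_cases h : i = l
    · subst h; simp; ring
    · simp [h]
  have hKd : ∀ i, K i i = 0 := by
    intro i
    rw [hK, Matrix.sub_apply, hd i, hXX i i, if_pos rfl, sub_self]
  have hKo : ∀ i l, i ≠ l → K i l = (Y * Y) i l := by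
    intro i l h
    rw [hK, Matrix.sub_apply, hXX i l, if_neg h, sub_zero]
  have hZli : ∀ i l, Z l i = star (Z i l) := by
    intro i l
    conv_lhs => rw [← hZs]
    rfl
  -- q
  set q : ℝ := ∑ i, ∑ l, Complex.normSq (Z i l) / x i with hq
  have hZZ : ∀ i, ((Z * Z) i i).re = ∑ l, Complex.normSq (Z i l) := by
    intro i
    rw [Matrix.mul_apply, Complex.re_sum]
    refine sum_congr rfl fun l _ => ?_
    rw [hZli i l, Complex.star_def, Complex.mul_conj, Complex.ofReal_re]
  have h1 : ∑ i, x i - Y.trace.re = q / 2 := by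
    have e1 : Y.trace.re = ∑ i, x i + ∑ i, (Z i i).re := by
      rw [hYZ, Matrix.trace_add, Complex.add_re, hX, Matrix.trace_diagonal, Complex.re_sum]
      simp [Matrix.trace, Complex.re_sum]
    have e2 : ∀ i, (Z i i).re = - ((∑ l, Complex.normSq (Z i l) / x i) / 2) := by
      intro i
      have h := congrArg Complex.re (hKd i)
      rw [hK2, Matrix.add_apply, Matrix.add_apply, Complex.add_re, Complex.add_re, hZZ i, hX,
        Matrix.diagonal_mul, Matrix.mul_diagonal, Complex.re_ofReal_mul, Complex.re_mul_ofReal,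
        Complex.zero_re] at h
      rw [← sum_div]
      have := hx i
      field_simp
      linarith
    rw [e1, sum_congr rfl fun i _ => e2 i, sum_neg_distrib, ← sum_div, hq]
    ring
  -- T
  have hq1 : (W * Z * Z).trace.re = q := by
    rw [hq]
    rw [mul_assoc, re_tr_mul]
    refine sum_congr rfl fun i _ => ?_
    have : ∀ l, (W i l * (Z * Z) l i).re = if l = i then ((Z * Z) i i).re / x i else 0 := by
      intro l
      by_cases h : l = i
      · subst h
        rw [if_pos rfl, hW, diagonal_apply_eq, ← Complex.ofReal_inv, Complex.re_ofReal_mul]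
        ring
      · rw [if_neg h, hW, diagonal_apply_ne _ (Ne.symm h), zero_mul, Complex.zero_re]
    rw [sum_congr rfl fun l _ => this l, sum_ite_eq' univ i, if_pos (mem_univ i), hZZ i, sum_div]
  have hq2 : (Z * W * Z).trace.re = q := by
    rw [← hq1, Matrix.trace_mul_comm (Z * W) Z, ← mul_assoc, Matrix.trace_mul_comm (Z * Z) W,
      ← mul_assoc]
  have hT : (W * K * (W * Z)).trace.re = q + ((W * Z)ᴴ * Y * (W * Z)).trace.re := by
    have e1 : W * K * (W * Z) = Z * W * Z + W * Z * Z + W * Z * Z * (W * Z) := by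
      rw [hK2]
      have : W * (X * Z + Z * X + Z * Z) * (W * Z)
        = (W * X) * Z * W * Z + W * Z * (X * W) * Z + W * Z * Z * (W * Z) := by noncomm_ring
      rw [this, hWX, hXW]
      noncomm_ring
    have e2 : (W * Z)ᴴ * Y * (W * Z) = Z * W * (Z * (W * Z)) + Z * W * Z := by
      rw [conjTranspose_mul, hWs, hZs, hYZ]
      have : Z * W * (X + Z) * (W * Z) = Z * (W * X) * W * Z + Z * W * (Z * (W * Z)) := by
        noncomm_ring
      rw [this, hWX]
      noncomm_ring
    have e3 : (W * Z * Z * (W * Z)).trace = (Z * W * (Z * (W * Z))).trace := by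
      have a1 : W * Z * Z * (W * Z) = (W * Z) * (Z * (W * Z)) := by noncomm_ring
      have a2 : Z * W * (Z * (W * Z)) = (Z * (W * Z)) * (W * Z) := by noncomm_ring
      rw [a1, a2, Matrix.trace_mul_comm]
    rw [e1, e2, re_trace_add, re_trace_add, re_trace_add, hq1, hq2, e3]
    ring
  have hTpos : 0 ≤ ((W * Z)ᴴ * Y * (W * Z)).trace.re :=
    tr_re_nonneg (hY.conjTranspose_mul_mul_same (W * Z))
  have hTsum : (W * K * (W * Z)).trace.re
      = ∑ i, ∑ l, (K i l * Z l i).re / (x i * x l) := by
    rw [re_tr_mul]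
    refine sum_congr rfl fun i _ => sum_congr rfl fun l _ => ?_
    rw [hW, Matrix.diagonal_mul, Matrix.diagonal_mul]
    have : ((x i : ℂ)⁻¹ * K i l * ((x l : ℂ)⁻¹ * Z l i))
        = (((x i * x l)⁻¹ : ℝ) : ℂ) * (K i l * Z l i) := by
      push_cast
      rw [mul_inv]
      ring
    rw [this, Complex.re_ofReal_mul]
    ring
  have hterm : ∀ i l, (K i l * Z l i).re / (x i * x l)
      ≤ Complex.normSq (K i l) / (x i * x l * (x i + x l))
        + (1 / 4) * (Complex.normSq (Z i l) / x i + Complex.normSq (Z l i) / x l) := by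
    intro i l
    have hxi := hx i
    have hxl := hx l
    have e1 : Complex.normSq (Z l i) = Complex.normSq (Z i l) := by
      rw [hZli i l, Complex.star_def, Complex.normSq_conj]
    have e2 : (K i l * Z l i).re ≤ ‖K i l‖ * ‖Z i l‖ := by
      refine (Complex.re_le_norm _).trans ?_
      rw [norm_mul, hZli i l, norm_star]
    rw [e1, Complex.normSq_eq_norm_sq, Complex.normSq_eq_norm_sq]
    set k := ‖K i l‖
    set z := ‖Z i l‖
    have e3 : (K i l * Z l i).re / (x i * x l) ≤ k * z / (x i * x l) :=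
      div_le_div_of_nonneg_right e2 (by positivity)
    refine e3.trans ?_
    have e4 : k ^ 2 / (x i * x l * (x i + x l)) + (1 / 4) * (z ^ 2 / x i + z ^ 2 / x l)
        - k * z / (x i * x l)
        = (k - z * (x i + x l) / 2) ^ 2 / (x i * x l * (x i + x l)) := by
      have : x i + x l ≠ 0 := by positivity
      field_simp
      ring
    have e5 : 0 ≤ (k - z * (x i + x l) / 2) ^ 2 / (x i * x l * (x i + x l)) := by positivity
    linarith
  have hκ : ∑ i, ∑ l, Complex.normSq (K i l) / (x i * x l * (x i + x l))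
      = ∑ i, ∑ l ∈ univ.erase i, Complex.normSq ((Y * Y) i l) / (x i * x l * (x i + x l)) := by
    refine sum_congr rfl fun i _ => ?_
    rw [← Finset.add_sum_erase univ _ (mem_univ i), hKd i, map_zero, zero_div, zero_add]
    refine sum_congr rfl fun l hl => ?_
    rw [hKo i l (Ne.symm (ne_of_mem_erase hl))]
  have hTle : (W * K * (W * Z)).trace.re
      ≤ ∑ i, ∑ l, Complex.normSq (K i l) / (x i * x l * (x i + x l)) + q / 2 := by
    rw [hTsum]
    have e1 : ∑ i, ∑ l, (K i l * Z l i).re / (x i * x l)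
        ≤ ∑ i, ∑ l, (Complex.normSq (K i l) / (x i * x l * (x i + x l))
          + (1 / 4) * (Complex.normSq (Z i l) / x i + Complex.normSq (Z l i) / x l)) :=
      sum_le_sum fun i _ => sum_le_sum fun l _ => hterm i l
    refine e1.trans (le_of_eq ?_)
    simp only [sum_add_distrib, ← mul_sum]
    rw [← hq, sum_comm (f := fun i l => Complex.normSq (Z l i) / x l), ← hq]
    ring
  rw [h1, ← hκ]
  linarith

end Pool.Agent.Helper340Trace
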