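import Mathlib
import Pool.Agent.Helper340_trace.Sharp

open Matrix Finset
open scoped ComplexOrder MatrixOrder

namespace Pool.Agent.Helper340Trace

variable {d : Type*} [Fintype d] [DecidableEq d] {ι : Type*} [Fintype ι] [DecidableEq ι]

/-- If `Ψ Ψᴴ = R²` with `R ≥ 0` then `Ψᴴ Ψ` has a positive square root of the same trace as `R`. -/
lemma exists_sqrt_transfer {R : Matrix d d ℂ} (hR : R.PosSemidef) (Ψ : Matrix d ι ℂ)
    (hΨ : Ψ * Ψᴴ = R * R) :
    ∃ Y : Matrix ι ι ℂ, Y.PosSemidef ∧ Y * Y = Ψᴴ * Ψ ∧ Y.trace.re = R.trace.re := by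
  obtain ⟨f, r, hf, hRf, hr⟩ := exists_spec hR.isHermitian
  have hr0 := hr hR
  set Q : Matrix d d ℂ := ∑ i, (((r i)⁻¹ : ℝ) : ℂ) • R1 (f i) with hQ
  set Pr : Matrix d d ℂ := ∑ i, (((r i)⁻¹ * r i : ℝ) : ℂ) • R1 (f i) with hPr
  have hQR : Q * R = Pr := by rw [hQ, hRf, hf.spec_mul]
  have hRQ : R * Q = Pr := by
    rw [hQ, hRf, hf.spec_mul, hPr]
    exact sum_congr rfl fun i _ => by rw [mul_comm]
  have hRPr : R * Pr = R := by
    rw [hPr, hRf, hf.spec_mul]
    refine sum_congr rfl fun i _ => ?_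
    congr 2
    by_cases h : r i = 0
    · simp [h]
    · field_simp
  have hPrR : Pr * R = R := by
    rw [hPr, hRf, hf.spec_mul]
    refine sum_congr rfl fun i _ => ?_
    congr 2
    by_cases h : r i = 0
    · simp [h]
    · field_simp
  have hQpos : Q.PosSemidef := hf.spec_pos fun i => inv_nonneg.2 (hr0 i)
  have hPrpos : Pr.PosSemidef := by
    refine hf.spec_pos fun i => mul_nonneg (inv_nonneg.2 (hr0 i)) (hr0 i)
  have hPrs : Prᴴ = Pr := hPrpos.isHermitian
  have hPrΨ : Pr * Ψ = Ψ := by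
    have h0 : ((1 - Pr) * Ψ) * ((1 - Pr) * Ψ)ᴴ = 0 := by
      rw [conjTranspose_mul, conjTranspose_sub, conjTranspose_one, hPrs]
      have : (1 - Pr) * Ψ * (Ψᴴ * (1 - Pr)) = (1 - Pr) * (Ψ * Ψᴴ) * (1 - Pr) := by
        simp only [Matrix.mul_assoc]
      rw [this, hΨ]
      have : (1 - Pr) * (R * R) * (1 - Pr) = (R - Pr * R) * (R - R * Pr) := by noncomm_ring
      rw [this, hPrR, sub_self, zero_mul]
    have h1 := Matrix.self_mul_conjTranspose_eq_zero.1 h0
    rw [Matrix.sub_mul, Matrix.one_mul, sub_eq_zero] at h1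
    exact h1.symm
  refine ⟨Ψᴴ * Q * Ψ, hQpos.conjTranspose_mul_mul_same Ψ, ?_, ?_⟩
  · have : Ψᴴ * Q * Ψ * (Ψᴴ * Q * Ψ) = Ψᴴ * (Q * (Ψ * Ψᴴ) * Q * Ψ) := by
      simp only [Matrix.mul_assoc]
    rw [this, hΨ]
    have : Q * (R * R) * Q * Ψ = (Q * R) * ((R * Q) * Ψ) := by
      simp only [Matrix.mul_assoc]
    rw [this, hQR, hRQ, hPrΨ, hPrΨ]
  · have h1 : (Ψᴴ * Q * Ψ).trace = (Q * (Ψ * Ψᴴ)).trace := by
      rw [Matrix.mul_assoc, Matrix.trace_mul_comm, Matrix.mul_assoc]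
    rw [h1, hΨ, ← Matrix.mul_assoc, hQR, hPrR]

lemma sum_subtype_le {p : ι → Prop} [DecidablePred p] {f : ι → ℝ} (hf : ∀ i, 0 ≤ f i) :
    ∑ i : {i // p i}, f i ≤ ∑ i, f i := by
  rw [← Fintype.sum_subtype_add_sum_subtype p f]
  have : 0 ≤ ∑ i : {i // ¬ p i}, f i := sum_nonneg fun i _ => hf i
  linarith

/-- the deficit bound for a family of positive semidefinite matrices in spectral form -/
lemma deficit_family {A : ι → Matrix d d ℂ} {x : ι → d → d → ℂ} {l : ι → d → ℝ}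
    (hx : ∀ j, ONB (x j)) (hAx : ∀ j, A j = ∑ i, (l j i : ℂ) • R1 (x j i))
    (hl : ∀ j i, 0 ≤ l j i) :
    ∑ j, (A j).trace.re - (CFC.sqrt (∑ j, A j ^ 2)).trace.re
      ≤ ∑ α : ι × d, ∑ β : ι × d, if α = β then 0 else
          (l α.1 α.2 * l β.1 β.2 / (l α.1 α.2 + l β.1 β.2))
            * Complex.normSq (star (x α.1 α.2) ⬝ᵥ x β.1 β.2) := by
  have hA : ∀ j, (A j).PosSemidef := fun j => by
    rw [hAx j]; exact (hx j).spec_pos (hl j)
  set S : Matrix d d ℂ := ∑ j, A j ^ 2 with hS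
  have hSpos : S.PosSemidef := posSemidef_sum _ fun j _ => (hA j).pow 2
  set R : Matrix d d ℂ := CFC.sqrt S with hR
  have hRR : R * R = S := CFC.sqrt_mul_sqrt_self S hSpos.nonneg
  have hRpos : R.PosSemidef := (CFC.sqrt_nonneg S).posSemidef
  set κ := {α : ι × d // 0 < l α.1 α.2} with hκ
  set a : ι × d → ℝ := fun α => l α.1 α.2 with ha
  set v : ι × d → d → ℂ := fun α => x α.1 α.2 with hv
  set Ψ : Matrix d κ ℂ := fun k α => (a α.1 : ℂ) * v α.1 k with hΨdef
  have hΨ : Ψ * Ψᴴ = R * R := by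
    rw [hRR, hS]
    have h1 : ∀ j, A j ^ 2 = ∑ i, ((l j i * l j i : ℝ) : ℂ) • R1 (x j i) := by
      intro j
      rw [sq, hAx j, (hx j).spec_mul]
    rw [sum_congr rfl fun j _ => h1 j]
    ext s t
    rw [Matrix.mul_apply]
    have h2 : (∑ j, ∑ i, ((l j i * l j i : ℝ) : ℂ) • R1 (x j i)) s t
        = ∑ α : ι × d, ((a α * a α : ℝ) : ℂ) * (v α s * star (v α t)) := by
      rw [Fintype.sum_prod_type, Matrix.sum_apply]
      refine sum_congr rfl fun j _ => ?_
      rw [Matrix.sum_apply]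
      refine sum_congr rfl fun i _ => ?_
      rw [Matrix.smul_apply, smul_eq_mul]
      rfl
    rw [h2, ← Fintype.sum_subtype_add_sum_subtype (fun α : ι × d => 0 < l α.1 α.2)
      (fun α => ((a α * a α : ℝ) : ℂ) * (v α s * star (v α t)))]
    have h3 : ∑ α : {α : ι × d // ¬ 0 < l α.1 α.2},
        ((a α.1 * a α.1 : ℝ) : ℂ) * (v α.1 s * star (v α.1 t)) = 0 := by
      refine sum_eq_zero fun α _ => ?_
      have : a α.1 = 0 := le_antisymm (not_lt.1 α.2) (hl _ _)
      rw [this]; simp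
    rw [h3, add_zero]
    refine sum_congr rfl fun α _ => ?_
    rw [conjTranspose_apply]
    simp only [hΨdef, star_mul']
    push_cast
    simp only [Complex.star_def, Complex.conj_ofReal]
    ring
  obtain ⟨Y, hY, hYY, hYtr⟩ := exists_sqrt_transfer hRpos Ψ hΨ
  have hent : ∀ α β : κ, (Y * Y) α β = ((a α.1 * a β.1 : ℝ) : ℂ) * (star (v α.1) ⬝ᵥ v β.1) := by
    intro α β
    rw [hYY, Matrix.mul_apply]
    simp only [dotProduct, mul_sum]
    refine sum_congr rfl fun k _ => ?_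
    rw [conjTranspose_apply]
    simp only [hΨdef, star_mul', Pi.star_apply]
    push_cast
    simp only [Complex.star_def, Complex.conj_ofReal]
    ring
  have hd : ∀ α : κ, (Y * Y) α α = ((a α.1 ^ 2 : ℝ) : ℂ) := by
    intro α
    rw [hent α α]
    simp only [hv]
    rw [(hx _).orth, if_pos rfl, mul_one]
    congr 1
    ring
  have hmain := deficit_le (x := fun α : κ => a α.1) (fun α => α.2) hY hd
  have htr : ∑ j, (A j).trace.re = ∑ α : κ, a α.1 := by
    have h1 : ∑ j, (A j).trace.re = ∑ α : ι × d, a α := by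
      rw [Fintype.sum_prod_type]
      refine sum_congr rfl fun j _ => ?_
      rw [hAx j, (hx j).tr_spec]
    rw [h1, ← Fintype.sum_subtype_add_sum_subtype (fun α : ι × d => 0 < l α.1 α.2) a]
    have h3 : ∑ α : {α : ι × d // ¬ 0 < l α.1 α.2}, a α.1 = 0 := by
      refine sum_eq_zero fun α _ => ?_
      exact le_antisymm (not_lt.1 α.2) (hl _ _)
    rw [h3, add_zero]
  rw [htr, ← hYtr]
  refine hmain.trans ?_
  set F : ι × d → ι × d → ℝ := fun α β => if α = β then 0 else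
          (l α.1 α.2 * l β.1 β.2 / (l α.1 α.2 + l β.1 β.2))
            * Complex.normSq (star (x α.1 α.2) ⬝ᵥ x β.1 β.2) with hF
  have hF0 : ∀ α β, 0 ≤ F α β := by
    intro α β
    simp only [hF]
    split_ifs
    · exact le_rfl
    · have h1 := hl α.1 α.2
      have h2 := hl β.1 β.2
      exact mul_nonneg (div_nonneg (mul_nonneg h1 h2) (add_nonneg h1 h2)) (Complex.normSq_nonneg _)
  have e1 : ∑ α : κ, ∑ β ∈ univ.erase α,
      Complex.normSq ((Y * Y) α β) / (a α.1 * a β.1 * (a α.1 + a β.1))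
      = ∑ α : κ, ∑ β : κ, F α.1 β.1 := by
    refine sum_congr rfl fun α _ => ?_
    rw [← Finset.add_sum_erase univ (fun β : κ => F α.1 β.1) (mem_univ α)]
    have : F α.1 α.1 = 0 := by simp [hF]
    rw [this, zero_add]
    refine sum_congr rfl fun β hβ => ?_
    have hne : ¬ α.1 = β.1 := fun h => (ne_of_mem_erase hβ) (Subtype.ext h.symm)
    simp only [hF, if_neg hne]
    rw [hent α β, Complex.normSq_mul, Complex.normSq_ofReal]
    have h1 : 0 < l α.1.1 α.1.2 := α.2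
    have h2 : 0 < l β.1.1 β.1.2 := β.2
    simp only [ha, hv]
    field_simp
  rw [e1]
  calc ∑ α : κ, ∑ β : κ, F α.1 β.1 ≤ ∑ α : κ, ∑ β, F α.1 β :=
        sum_le_sum fun α _ => sum_subtype_le (fun β => hF0 _ _)
    _ ≤ ∑ α, ∑ β, F α β :=
        sum_subtype_le (f := fun α => ∑ β, F α β) (fun α => sum_nonneg fun β _ => hF0 _ _)

/-- sharp lower bound for the pairwise error -/
lemma pair_bound_sharp {x y : d → d → ℂ} {a b : d → ℝ} (hx : ONB x) (hy : ONB y)
    (ha : ∀ i, 0 ≤ a i) (hb : ∀ i, 0 ≤ b i) {A B : Matrix d d ℂ}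
    (hA : A = ∑ i, (a i : ℂ) • R1 (x i)) (hB : B = ∑ i, (b i : ℂ) • R1 (y i)) :
    2 * ∑ p, ∑ q, (a p * b q / (a p + b q)) * Complex.normSq (star (x p) ⬝ᵥ y q)
      ≤ (A + B).trace.re - tn (A - B) := by
  have hApos : A.PosSemidef := by rw [hA]; exact hx.spec_pos ha
  have hBpos : B.PosSemidef := by rw [hB]; exact hy.spec_pos hb
  have hXh : (A - B).IsHermitian := hApos.isHermitian.sub hBpos.isHermitian
  obtain ⟨z, c, hz, hc, -⟩ := exists_spec hXh
  set α : d → ℝ := fun i => (star (z i) ⬝ᵥ (A *ᵥ z i)).re with hα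
  set β : d → ℝ := fun i => (star (z i) ⬝ᵥ (B *ᵥ z i)).re with hβ
  have hcαβ : ∀ i, c i = α i - β i := by
    intro i
    have h1 : (star (z i) ⬝ᵥ ((A - B) *ᵥ z i)).re = α i - β i := by
      rw [sub_mulVec, dotProduct_sub, Complex.sub_re]
    have h2 : (star (z i) ⬝ᵥ ((A - B) *ᵥ z i)).re = c i := by
      rw [hc, hz.quad_spec, sum_eq_single i]
      · rw [hz.orth, if_pos rfl, map_one, mul_one]
      · intro j _ hj
        rw [hz.orth, if_neg hj, map_zero, mul_zero]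
      · intro h; exact absurd (mem_univ i) h
    linarith
  have htr : (A + B).trace.re = ∑ i, (α i + β i) := by
    rw [hz.tr_eq (A + B), Complex.re_sum]
    refine sum_congr rfl fun i _ => ?_
    rw [add_mulVec, dotProduct_add, Complex.add_re]
  have htn : tn (A - B) = ∑ i, |α i - β i| := by
    rw [hc, tn_eq hz]
    exact sum_congr rfl fun i _ => by rw [hcαβ i]
  set I : Finset d := univ.filter (fun i => α i ≤ β i) with hI
  have hrhs : (A + B).trace.re - tn (A - B) = 2 * ∑ i ∈ I, α i + 2 * ∑ i ∈ Iᶜ, β i := by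
    rw [htr, htn, ← sum_sub_distrib, ← Finset.sum_add_sum_compl I, mul_sum, mul_sum]
    congr 1
    · refine sum_congr rfl fun i hi => ?_
      rw [hI, mem_filter] at hi
      rw [abs_of_nonpos (by linarith [hi.2])]
      ring
    · refine sum_congr rfl fun i hi => ?_
      rw [mem_compl, hI, mem_filter] at hi
      have : β i < α i := by
        by_contra h
        exact hi ⟨mem_univ i, not_lt.1 h⟩
      rw [abs_of_pos (by linarith)]
      ring
  have hT : Tp z I + Tp z Iᶜ = 1 := by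
    unfold Tp
    rw [Finset.sum_add_sum_compl]
    exact hz.compl
  have hsplit : ∀ p q, (a p * b q / (a p + b q)) * Complex.normSq (star (x p) ⬝ᵥ y q)
      ≤ a p * Complex.normSq (star (x p) ⬝ᵥ (Tp z I *ᵥ y q))
        + b q * Complex.normSq (star (x p) ⬝ᵥ (Tp z Iᶜ *ᵥ y q)) := by
    intro p q
    have h1 : star (x p) ⬝ᵥ y q = star (x p) ⬝ᵥ (Tp z I *ᵥ y q)
        + star (x p) ⬝ᵥ (Tp z Iᶜ *ᵥ y q) := by
      rw [← dotProduct_add, ← add_mulVec, hT, one_mulVec]
    rw [h1]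
    set s := star (x p) ⬝ᵥ (Tp z I *ᵥ y q)
    set t := star (x p) ⬝ᵥ (Tp z Iᶜ *ᵥ y q)
    have hap := ha p
    have hbq := hb q
    rcases eq_or_lt_of_le (add_nonneg hap hbq) with h0 | h0
    · rw [← h0, div_zero, zero_mul]
      exact add_nonneg (mul_nonneg hap (Complex.normSq_nonneg _))
        (mul_nonneg hbq (Complex.normSq_nonneg _))
    · rw [div_mul_eq_mul_div, div_le_iff₀ h0]
      simp only [Complex.normSq_apply, Complex.add_re, Complex.add_im]
      nlinarith [sq_nonneg (a p * s.re - b q * t.re), sq_nonneg (a p * s.im - b q * t.im)]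
  have hsum : ∑ p, ∑ q, (a p * b q / (a p + b q)) * Complex.normSq (star (x p) ⬝ᵥ y q)
      ≤ (∑ p, ∑ q, a p * Complex.normSq (star (x p) ⬝ᵥ (Tp z I *ᵥ y q)))
        + (∑ p, ∑ q, b q * Complex.normSq (star (x p) ⬝ᵥ (Tp z Iᶜ *ᵥ y q))) := by
    rw [← sum_add_distrib]
    refine sum_le_sum fun p _ => ?_
    rw [← sum_add_distrib]
    exact sum_le_sum fun q _ => hsplit p q
  have e1 := sum_proj (a := a) hx hy hz I
  have e2 : ∑ p, ∑ q, b q * Complex.normSq (star (x p) ⬝ᵥ (Tp z Iᶜ *ᵥ y q))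
      = ∑ i ∈ Iᶜ, (star (z i) ⬝ᵥ ((∑ p, (b p : ℂ) • R1 (y p)) *ᵥ z i)).re := by
    rw [← sum_proj (a := b) hy hx hz Iᶜ, sum_comm]
    refine sum_congr rfl fun q _ => sum_congr rfl fun p _ => ?_
    congr 1
    rw [normSq_star_dot (y q) (Tp z Iᶜ *ᵥ x p), star_mulVec, Tp_star, dotProduct_mulVec]
  rw [e1, e2, ← hA, ← hB] at hsum
  rw [hrhs]
  linarith

end Pool.Agent.Helper340Trace
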